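import Mathlib

set_option autoImplicit false
set_option maxRecDepth 100000

namespace Pool.Agent.Results.MP_8dcfbf_co.Counter

/-- sequences built from `(1,1)`: the new end term is the sum of the `q + 1` consecutive terms
starting at position `p` -/
inductive Built : List ℕ → Prop
  | start : Built [1, 1]
  | left (d : List ℕ) (p q : ℕ) : Built d → p + q < d.length →
      Built (((d.drop p).take (q + 1)).sum :: d)
  | right (d : List ℕ) (p q : ℕ) : Built d → p + q < d.length →
      Built (d ++ [((d.drop p).take (q + 1)).sum])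

/-- regular type B sequences -/
def Regular (d : List ℕ) : Prop := d = [1] ∨ Built d

/-- least length of a regular sequence having a permutation of `k` as a subsequence -/
noncomputable def b (k : List ℕ) : ℕ :=
  sInf {n | ∃ d, Regular d ∧ d.length = n ∧ ∃ l : List ℕ, l.Perm k ∧ l.Sublist d}

def blocks (d : List ℕ) : List ℕ :=
  (List.range d.length).flatMap fun p => (List.range (d.length - p)).map fun q =>
    ((d.drop p).take (q + 1)).sum

def kids (d : List ℕ) : List (List ℕ) := (blocks d).flatMap fun x => [x :: d, d ++ [x]]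

def force (x : ℕ) (k : ℕ → Bool) : Bool :=
  Nat.rec (motive := fun _ => Bool) (k 0) (fun n _ => k (Nat.succ n)) x

lemma force_eq (x : ℕ) (k : ℕ → Bool) : force x k = k x := by cases x <;> rfl

def allK (d : List ℕ) (f : List ℕ → Bool) : Bool :=
  (blocks d).all fun x => force x fun y => f (y :: d) && f (d ++ [y])

lemma allK_spec (d : List ℕ) (f : List ℕ → Bool) (h : allK d f = true) :
    ∀ c ∈ kids d, f c = true := by
  intro c hc
  obtain ⟨x, hx, hc⟩ := List.mem_flatMap.1 hc
  have := List.all_eq_true.1 h x hx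
  rw [force_eq, Bool.and_eq_true] at this
  simp only [List.mem_cons, List.not_mem_nil, or_false] at hc
  rcases hc with rfl | rfl
  · exact this.1
  · exact this.2

def fin (d : List ℕ) : Bool :=
  allK d fun c => !(decide (51 ∈ c) || decide (61 ∈ c)) ||
    allK c fun e => !(decide (51 ∈ e) && decide (61 ∈ e))

def go : ℕ → List ℕ → Bool
  | 0, d => fin d
  | n + 1, d => allK d fun c => decide (c.sum * 2 ^ n < 51) || go n c

lemma go_ok : go 5 [1, 1] = true := by decide +kernel

lemma blk_le (d : List ℕ) (p q : ℕ) : ((d.drop p).take q).sum ≤ d.sum :=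
  ((List.take_sublist _ _).trans (List.drop_sublist _ _)).sum_le_sum (fun _ _ => Nat.zero_le _)

lemma par (e : List ℕ) (h : Built e) : e = [1, 1] ∨ ∃ d x, Built d ∧ e ∈ kids d ∧ x ≤ d.sum ∧
    e.length = d.length + 1 ∧ e.sum = d.sum + x ∧ ∀ y ∈ e, y = x ∨ y ∈ d := by
  have mem : ∀ (d : List ℕ) (p q : ℕ), p + q < d.length →
      ((d.drop p).take (q + 1)).sum ∈ blocks d := by
    intro d p q hpq
    simp only [blocks, List.mem_flatMap, List.mem_map, List.mem_range]
    exact ⟨p, by omega, q, by omega, rfl⟩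
  cases h with
  | start => exact Or.inl rfl
  | left d p q hd hpq =>
    refine Or.inr ⟨d, _, hd, List.mem_flatMap.2 ⟨_, mem d p q hpq, by simp⟩, blk_le d p (q + 1),
      by simp, by simp [add_comm], by simp⟩
  | right d p q hd hpq =>
    refine Or.inr ⟨d, _, hd, List.mem_flatMap.2 ⟨_, mem d p q hpq, by simp⟩, blk_le d p (q + 1),
      by simp, by simp, ?_⟩
    intro y hy
    rcases List.mem_append.1 hy with a | a
    · exact Or.inr a
    · exact Or.inl (by simpa using a)

lemma bnd : ∀ (n : ℕ) (e : List ℕ), Built e → e.length = n + 2 →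
    e.sum ≤ 2 * 2 ^ n ∧ ∀ y ∈ e, y ≤ 2 ^ n := by
  intro n
  induction n with
  | zero =>
    intro e h hl
    rcases par e h with rfl | ⟨d, x, hd, -, -, h2, -⟩
    · simp
    · rcases par d hd with rfl | ⟨c, y, hc, -, -, h3, -⟩
      · simp at h2; omega
      · rcases par c hc with rfl | ⟨c, y, hc, -, -, h4, -⟩
        · simp at h3; omega
        · omega
  | succ n ih =>
    intro e h hl
    rcases par e h with rfl | ⟨d, x, hd, -, h1, h2, h3, h4⟩
    · simp at hl
    · obtain ⟨a1, a2⟩ := ih d hd (by omega)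
      refine ⟨by rw [pow_succ]; omega, fun y hy => ?_⟩
      rw [pow_succ]
      rcases h4 y hy with rfl | a
      · omega
      · have := a2 y a; omega

lemma len (e : List ℕ) (h : Built e) : 2 ≤ e.length := by
  induction h <;> simp <;> omega

lemma reach : ∀ (n : ℕ) (e : List ℕ), Built e → e.length = n + 2 → ∀ m, n + m = 5 →
    51 ≤ e.sum * 2 ^ m → go m e = true := by
  intro n
  induction n with
  | zero =>
    intro e h hl m hm _
    rcases par e h with rfl | ⟨d, x, hd, -, -, h2, -⟩
    · have : m = 5 := by omega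
      subst this; exact go_ok
    · have := len d hd; omega
  | succ n ih =>
    intro e h hl m hm hs
    rcases par e h with rfl | ⟨d, x, hd, h0, h1, h2, h3, -⟩
    · simp at hl
    · have hg := ih d hd (by omega) (m + 1) (by omega) (by
        rw [pow_succ]
        have : e.sum * 2 ^ m ≤ (d.sum * 2) * 2 ^ m := Nat.mul_le_mul_right _ (by omega)
        nlinarith)
      have := allK_spec _ _ hg e h0
      simp only [Bool.or_eq_true, decide_eq_true_eq] at this
      exact this.resolve_left (by omega)

lemma low (e : List ℕ) (h : Built e) (h1 : 51 ∈ e) (h2 : 61 ∈ e) : 10 ≤ e.length := by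
  by_contra hl
  rcases par e h with rfl | ⟨c, x, hc, k1, -, l1, -, m1⟩
  · simp at h1
  have hc' : 51 ∈ c ∨ 61 ∈ c := by
    rcases m1 _ h1 with a | a
    · rcases m1 _ h2 with a2 | a2
      · omega
      · exact Or.inr a2
    · exact Or.inl a
  rcases par c hc with rfl | ⟨d, y, hd, k2, s2, l2, -, m2⟩
  · simp at hc'
  obtain ⟨n, hn⟩ : ∃ n, d.length = n + 2 := ⟨d.length - 2, by have := len d hd; omega⟩
  obtain ⟨a1, a2⟩ := bnd n d hd hn
  have p5 : 2 ^ n ≤ 2 ^ 5 := Nat.pow_le_pow_right (by norm_num) (by omega)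
  have y51 : 51 ≤ y := by
    rcases hc' with a | a
    · rcases m2 _ a with a3 | a3
      · omega
      · have := a2 _ a3; omega
    · rcases m2 _ a with a3 | a3
      · omega
      · have := a2 _ a3; omega
  have n5 : n = 5 := by
    by_contra hne
    have : 2 ^ n ≤ 2 ^ 4 := Nat.pow_le_pow_right (by norm_num) (by omega)
    omega
  have hg : fin d = true := reach n d hd hn 0 (by omega) (by omega)
  have := allK_spec _ _ hg c k2
  rw [Bool.or_eq_true] at this
  rcases this with a | a
  · rcases hc' with z | z <;> simp [z] at a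
  · have := allK_spec _ _ a e k1
    simp [h1, h2] at this

lemma w8 : Built [61, 31, 16, 8, 4, 2, 1, 1] :=
  .left _ 0 4 (.left [16, 8, 4, 2, 1, 1] 0 4 (.left [8, 4, 2, 1, 1] 0 4 (.left [4, 2, 1, 1] 0 3
    (.left [2, 1, 1] 0 2 (.left [1, 1] 0 1 .start (by decide)) (by decide)) (by decide))
    (by decide)) (by decide)) (by decide)

lemma w10 : Built [51, 61, 31, 16, 8, 4, 2, 1, 1, 47] :=
  .left [61, 31, 16, 8, 4, 2, 1, 1, 47] 5 3 (.right _ 1 1 w8 (by decide)) (by decide)

theorem result : b [61] + 1 < b [51, 61] ∧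
    ¬ ∀ k₁ k₂ : ℕ, 0 < k₁ → k₁ ≤ k₂ → b [k₁, k₂] ≤ b [k₂] + 1 := by
  have h1 : b [61] ≤ 8 := Nat.sInf_le ⟨_, Or.inr w8, rfl, [61], .refl _, by decide⟩
  have h2 : 10 ≤ b [51, 61] := by
    have ne : {n | ∃ d, Regular d ∧ d.length = n ∧ ∃ l : List ℕ, l.Perm [51, 61] ∧ l.Sublist d}.Nonempty :=
      ⟨10, _, Or.inr w10, rfl, [51, 61], .refl _, by decide⟩
    obtain ⟨d, hd, hl, l, p, s⟩ := Nat.sInf_mem ne
    have a1 : 51 ∈ d := s.subset (p.symm.subset (by simp))
    have a2 : 61 ∈ d := s.subset (p.symm.subset (by simp))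
    rcases hd with rfl | hd
    · simp at a1
    · exact (low d hd a1 a2).trans hl.le
  refine ⟨by omega, fun h => ?_⟩
  have := h 51 61 (by norm_num) (by norm_num)
  omega

end Pool.Agent.Results.MP_8dcfbf_co.Counter
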